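import Pool.Agent.H10.FEX.Stmts
import Pool.Agent.H42.FEW.MOM

/-! FEX, module PFC: ordered factorisations into primes. -/

set_option autoImplicit false

namespace Pool.FEX

open Finset Pool.Agent.H98.ABCR Pool.SHA Pool.FEW

theorem pfc_thm : S_PFC := by
  intro t U hU N
  refine mom_fib _ N fun w hw => ?_
  rw [mem_filter, Fintype.mem_piFinset] at hw
  exact ⟨fun i => hU _ (hw.1 i), hw.2⟩

end Pool.FEX
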