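import Pool.Agent.H10.FEX.Stmts
import Pool.Agent.H42.FEW.MOM

/-! FEX, module MO2: moments of one factor (integers instead of primes). -/

set_option autoImplicit false

namespace Pool.FEX

open Finset Pool.Agent.H98.ABCR Pool.SHA Pool.FEW

theorem mo2_thm : S_MO2 := by
  intro e r P t M U Φ he hM hU hUM hPt hΦ
  classical
  have hMp : ∀ l ∈ M, l.Prime := fun l hl => (hM l hl).1
  have hΦ' : ∀ N : ℕ, ((Fintype.piFinset fun _ : Fin t => U).filter
      (fun w => ∏ i, w i = N)).card ≤ ⌊Φ⌋₊ := fun N => Nat.le_floor (hΦ N)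
  have hΦ0 : 0 ≤ Φ := (Nat.cast_nonneg _).trans (hΦ 0)
  -- the products
  have hI : ∀ c : ℕ → ℕ, ((Icc 1 (∏ l ∈ M, l)).filter
      (fun m => ∀ l ∈ M, ¬ l ∣ m ∧ m ^ (r * ((l - 1) / e)) ≡ c l [MOD l])).card ≤
      2 * ∏ l ∈ M, (((l - 1) / e) * Nat.gcd r e) := by
    intro c
    have h := crt_thm M (fun l x => ¬ l ∣ x ∧ x ^ (r * ((l - 1) / e)) ≡ c l [MOD l])
      (fun l => ((((l - 1) / e) * Nat.gcd r e : ℕ) : ℝ)) (∏ l ∈ M, (l : ℝ)) hMp
      (fun l hl => by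
        refine Nat.cast_le.mpr ((card_le_card (fun x hx => ?_)).trans
          (mom_root (r := r) (hM l hl).1 (hM l hl).2 (c l)))
        simp only [mem_filter] at hx ⊢
        exact hx) le_rfl
    have hfl : ⌊(∏ l ∈ M, (l : ℝ))⌋₊ = ∏ l ∈ M, l := by
      have : (∏ l ∈ M, (l : ℝ)) = ((∏ l ∈ M, l : ℕ) : ℝ) := by push_cast; rfl
      rw [this, Nat.floor_natCast]
    rw [hfl] at h
    have hpos : (∏ l ∈ M, (l : ℝ)) ≠ 0 := by
      rw [prod_ne_zero_iff]
      intro l hl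
      exact_mod_cast (hMp l hl).ne_zero
    have h2 : 2 * (∏ l ∈ M, (l : ℝ)) * ∏ l ∈ M, ((((l - 1) / e) * Nat.gcd r e : ℕ) : ℝ) / (l : ℝ) =
        ((2 * ∏ l ∈ M, (((l - 1) / e) * Nat.gcd r e) : ℕ) : ℝ) := by
      rw [prod_div_distrib, mul_assoc, mul_div_cancel₀ _ hpos]
      push_cast
      rfl
    rw [h2] at h
    refine (card_le_card (fun m hm => ?_)).trans (Nat.cast_le.mp h)
    have hm' := mem_filter.mp hm
    simp only [mem_filter]
    refine ⟨hm'.1, fun l hl => ⟨?_, ?_⟩⟩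
    · rw [Nat.dvd_mod_iff (dvd_refl l)]; exact (hm'.2 l hl).1
    · exact ((Nat.mod_modEq m l).pow _).trans (hm'.2 l hl).2
  -- number of the second tuples
  have hF : ∀ c : ℕ → ℕ, ((Fintype.piFinset fun _ : Fin t => U).filter
      (fun w => ∀ l ∈ M, (∏ i, w i) ^ (r * ((l - 1) / e)) ≡ c l [MOD l])).card ≤
      ⌊Φ⌋₊ * (2 * ∏ l ∈ M, (((l - 1) / e) * Nat.gcd r e)) := by
    intro c
    have h1 := card_le_mul_card_image (f := fun w : Fin t → ℕ => ∏ i, w i)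
      ((Fintype.piFinset fun _ : Fin t => U).filter
      (fun w => ∀ l ∈ M, (∏ i, w i) ^ (r * ((l - 1) / e)) ≡ c l [MOD l])) ⌊Φ⌋₊
      (fun m _ => le_trans (card_le_card fun w hw => by
        rw [mem_filter, mem_filter] at hw
        exact mem_filter.mpr ⟨hw.1.1, hw.2⟩) (hΦ' m))
    refine h1.trans (Nat.mul_le_mul le_rfl ?_)
    refine (card_le_card (fun m hm => ?_)).trans (hI c)
    obtain ⟨w, hw, rfl⟩ := mem_image.mp hm
    have hw' := mem_filter.mp hw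
    have hwU := Fintype.mem_piFinset.mp hw'.1
    refine mem_filter.mpr ⟨mem_Icc.mpr ⟨?_, ?_⟩, fun l hl => ⟨?_, hw'.2 l hl⟩⟩
    · exact Nat.one_le_iff_ne_zero.mpr (prod_ne_zero_iff.mpr fun i _ =>
        (hU _ (hwU i)).1.ne')
    · refine le_trans ?_ hPt
      calc ∏ i, w i ≤ ∏ _i : Fin t, (2 * P) :=
            prod_le_prod' (fun i _ => (hU _ (hwU i)).2.le)
        _ = (2 * P) ^ t := by rw [prod_const, card_univ, Fintype.card_fin]
    · intro hd
      obtain ⟨i, _, hi⟩ := ((hMp l hl).prime.dvd_finsetProd_iff _).mp hd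
      exact hUM _ (hwU i) l hl hi
  have h3 := card_le_mul_card_image (f := fun w : (Fin t → ℕ) × (Fin t → ℕ) => w.1)
    (((Fintype.piFinset fun _ : Fin t => U) ×ˢ (Fintype.piFinset fun _ : Fin t => U)).filter
    (fun w => ∀ l ∈ M, (∏ i, w.1 i) ^ (r * ((l - 1) / e)) ≡
      (∏ i, w.2 i) ^ (r * ((l - 1) / e)) [MOD l]))
    (⌊Φ⌋₊ * (2 * ∏ l ∈ M, (((l - 1) / e) * Nat.gcd r e))) (fun a _ => by
      refine le_trans (card_le_card_of_injOn (fun w => w.2) ?_ ?_)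
        (hF (fun l => (∏ i, a i) ^ (r * ((l - 1) / e))))
      · intro w hw
        have hw' := mem_filter.mp (mem_coe.mp hw)
        have hw2 := mem_filter.mp hw'.1
        have hw3 := mem_product.mp hw2.1
        rw [mem_coe]
        refine mem_filter.mpr ⟨hw3.2, fun l hl => ?_⟩
        have h4 := (hw2.2 l hl).symm
        rw [hw'.2] at h4
        exact h4
      · intro w hw w' hw' hww
        have h5 := (mem_filter.mp (mem_coe.mp hw)).2
        have h6 := (mem_filter.mp (mem_coe.mp hw')).2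
        exact Prod.ext (h5.trans h6.symm) hww)
  have h7 : (((((Fintype.piFinset fun _ : Fin t => U) ×ˢ
      (Fintype.piFinset fun _ : Fin t => U)).filter
    (fun w => ∀ l ∈ M, (∏ i, w.1 i) ^ (r * ((l - 1) / e)) ≡
      (∏ i, w.2 i) ^ (r * ((l - 1) / e)) [MOD l]))).image
        (fun w : (Fin t → ℕ) × (Fin t → ℕ) => w.1)).card ≤ U.card ^ t := by
    refine (card_le_card (t := Fintype.piFinset fun _ : Fin t => U) (fun a ha => ?_)).trans ?_
    · obtain ⟨w, hw, rfl⟩ := mem_image.mp ha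
      exact (mem_product.mp (mem_filter.mp hw).1).1
    · rw [Fintype.card_piFinset, prod_const, card_univ, Fintype.card_fin]
  have h8 := h3.trans (Nat.mul_le_mul le_rfl h7)
  have h9 : ((⌊Φ⌋₊ * (2 * ∏ l ∈ M, (((l - 1) / e) * Nat.gcd r e)) * U.card ^ t : ℕ) : ℝ) =
      2 * (∏ l ∈ M, ((((l - 1) / e : ℕ) : ℝ) * (Nat.gcd r e : ℝ))) * (U.card : ℝ) ^ t *
        ⌊Φ⌋₊ := by
    push_cast
    ring
  have h10 : 2 * (∏ l ∈ M, ((((l - 1) / e : ℕ) : ℝ) * (Nat.gcd r e : ℝ))) * (U.card : ℝ) ^ t *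
        ⌊Φ⌋₊ ≤ 2 * (∏ l ∈ M, ((((l - 1) / e : ℕ) : ℝ) * (Nat.gcd r e : ℝ))) *
        (U.card : ℝ) ^ t * Φ :=
    mul_le_mul_of_nonneg_left (Nat.floor_le hΦ0) (by positivity)
  refine le_trans ?_ h10
  rw [← h9]
  exact Nat.cast_le.mpr ((card_le_card (fun w hw => mem_filter.mpr
    ⟨(mem_filter.mp hw).1, (mem_filter.mp hw).2⟩)).trans h8)

end Pool.FEX
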